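import Pool.Agent.PFD.StmtsD3

/-!
Squad PFD, block D3, row EPN: the augmentation of `R1` and its nilpotent kernel.
-/

set_option autoImplicit false

open scoped BigOperators

noncomputable section

namespace Pool.Agent.PFD.D3.H70

open MvPolynomial

theorem supp_prod {σ R ι : Type} [CommRing R] (s : Finset ι) (p : ι → MvPolynomial σ R)
    (hp : ∀ i ∈ s, MvPolynomial.constantCoeff (p i) = 0) :
    ∀ u ∈ (∏ i ∈ s, p i).support, s.card ≤ u.degree := by
  classical
  induction s using Finset.induction_on with
  | empty =>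
    intro u _
    simp
  | insert i s hi ih =>
    intro u hu
    rw [Finset.prod_insert hi] at hu
    obtain ⟨u1, h1, u2, h2, rfl⟩ := Finset.mem_add.1 (MvPolynomial.support_mul _ _ hu)
    have h3 := ih (fun j hj => hp j (Finset.mem_insert_of_mem hj)) u2 h2
    have h4 : 1 ≤ u1.degree := by
      rw [Nat.one_le_iff_ne_zero]
      intro h0
      rw [Finsupp.degree_eq_zero_iff] at h0
      subst h0
      rw [MvPolynomial.mem_support_iff] at h1
      exact h1 (hp i (Finset.mem_insert_self i s))
    rw [Finset.card_insert_of_notMem hi, map_add]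
    omega

theorem cc_Lb {R E B : Type} [CommRing R] [Group E] {J : B → Type} [∀ b, Fintype (J b)]
    [∀ b, DecidableEq (J b)] (D : ∀ b, E →* Matrix (J b) (J b) R) (e : E)
    (p : MvPolynomial (Σ b, J b) R) :
    MvPolynomial.constantCoeff (Lb D e p) = MvPolynomial.constantCoeff p := by
  have h : (MvPolynomial.constantCoeff (σ := Σ b, J b) (R := R)).comp (Lb D e).toRingHom =
      MvPolynomial.constantCoeff := by
    apply MvPolynomial.ringHom_ext
    · intro r
      show MvPolynomial.constantCoeff (Lb D e (C r)) = _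
      rw [Lb, ← MvPolynomial.algebraMap_eq, AlgHom.commutes]
    · intro i
      show MvPolynomial.constantCoeff (Lb D e (X i)) = _
      rw [Lb, aeval_X, map_sum]
      simp
  exact RingHom.congr_fun h p

theorem epn : EpnStmt := by
  intro ℓ _ R F E B R1 _ _ _ _ c J _ _ a D _ _ q ha
  classical
  have hq0 : ∀ i : Σ b, J b, 0 < ℓ ^ a i.1 := fun i => pow_pos (Fact.out : ℓ.Prime).pos _
  let z : ∀ i : Σ b, J b, Fin (ℓ ^ a i.1) := fun i => ⟨0, hq0 i⟩
  have hz : ∀ i, ((z i : Fin _) : ℕ) = 0 := fun i => rfl
  have hz0 : ∑ i, ((z i : Fin _) : ℕ) = 0 := Finset.sum_eq_zero fun i _ => hz i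
  have hbz : q.b z = 1 := by
    rw [q.b_eq, PFC.B3.mo]
    have : ∏ i : Σ b, J b, (X i : MvPolynomial (Σ b, J b) R) ^ ((z i : Fin _) : ℕ) = 1 :=
      Finset.prod_eq_one fun i _ => by rw [hz, pow_zero]
    rw [this, map_one]
  let t0 : R1 →ₗ[R] R := q.b.coord z
  have ht0 : ∀ p, t0 (q.pm p) = MvPolynomial.constantCoeff p := by
    intro p
    induction p using MvPolynomial.induction_on' with
    | monomial u r =>
      by_cases hu : u = 0
      · subst hu
        have h1 : (monomial 0 r : MvPolynomial (Σ b, J b) R) = algebraMap R _ r := rfl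
        rw [h1, AlgHom.commutes, Algebra.algebraMap_eq_smul_one, map_smul, ← hbz]
        show r • q.b.coord z (q.b z) = _
        rw [Module.Basis.coord_apply, Module.Basis.repr_self, Finsupp.single_eq_same]
        simp [MvPolynomial.algebraMap_eq]
      · have h1 : (monomial u r : MvPolynomial (Σ b, J b) R).IsHomogeneous u.degree :=
          isHomogeneous_monomial r rfl
        have h2 := q.b_deg _ _ h1 z (by
          rw [hz0]
          intro h
          exact hu ((Finsupp.degree_eq_zero_iff u).1 h.symm))
        show q.b.coord z (q.pm (monomial u r)) = _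
        rw [Module.Basis.coord_apply, h2, MvPolynomial.constantCoeff_eq, coeff_monomial, if_neg hu]
    | add p q' hp hq =>
      rw [map_add, map_add, map_add, hp, hq]
  let eps : R1 →ₐ[R] R := AlgHom.ofLinearMap t0
    (by
      have h1 := ht0 1
      rw [map_one q.pm, map_one MvPolynomial.constantCoeff] at h1
      exact h1)
    (by
      intro x y
      obtain ⟨p, rfl⟩ := q.sur x
      obtain ⟨p', rfl⟩ := q.sur y
      rw [← map_mul, ht0, ht0, ht0, map_mul])
  have heps : ∀ p, eps (q.pm p) = MvPolynomial.constantCoeff p := ht0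
  refine ⟨eps, (∑ i : Σ b, J b, (ℓ ^ a i.1 - 1)) + 1, heps, ?_, ?_, ?_⟩
  · intro y hy
    choose p hp using fun i => q.sur (y i)
    have h1 : ∏ i, y i = q.pm (∏ i, p i) := by
      rw [map_prod]
      exact Finset.prod_congr rfl fun i _ => (hp i).symm
    have h2 := supp_prod Finset.univ p (fun i _ => by rw [← heps, hp]; exact hy i)
    rw [Finset.card_univ, Fintype.card_fin] at h2
    rw [h1, (∏ i, p i).as_sum, map_sum]
    apply Finset.sum_eq_zero
    intro u hu
    apply q.b.ext_elem
    intro α
    rw [map_zero, Finsupp.zero_apply]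
    apply q.b_deg _ _ (isHomogeneous_monomial _ rfl)
    have h3 : ∑ i, ((α i : Fin _) : ℕ) ≤ ∑ i : Σ b, J b, (ℓ ^ a i.1 - 1) :=
      Finset.sum_le_sum fun i _ => by
        have := (α i).2
        omega
    have h4 := h2 u hu
    omega
  · intro act hact e x
    obtain ⟨p, rfl⟩ := q.sur x
    rw [hact, heps, heps, cc_Lb]
  · intro v hv x
    obtain ⟨p, rfl⟩ := q.sur x
    induction p using MvPolynomial.induction_on' with
    | monomial u r =>
      rw [hv u.degree _ (isHomogeneous_monomial r rfl), map_smul, heps,
        MvPolynomial.constantCoeff_eq, coeff_monomial]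
      by_cases hu : u = 0
      · subst hu
        simp
      · rw [if_neg hu, smul_zero]
    | add p q' hp hq => rw [map_add, map_add, map_add, hp, hq, add_zero]

end Pool.Agent.PFD.D3.H70
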