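import Pool.Agent.PFD.StmtsD3

/-!
Squad PFD, block D3, row SGM: the socle element of `R1`.
-/

set_option autoImplicit false

open scoped BigOperators

noncomputable section

namespace Pool.Agent.PFD.D3.H70

theorem sgm (hFts : FtsStmt) : SgmStmt := by
  intro R F V R1 K _ _ _ _ _ _ _ _ c rho ℓ _ _ t y y' eps hV h1 hdu
  classical
  -- scalars
  have hqs : ∀ (r : R) x, rho.q (r • x) = c.κ r • rho.q x := by
    intro r x
    rw [Algebra.smul_def, map_mul, rho.sc, ← Algebra.smul_def]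
  have hpi : c.κ c.π = 0 := (c.ker c.π).2 ⟨1, (mul_one _).symm⟩
  -- the form is nondegenerate
  have hnd : ∀ a b : R1, (∀ w, t (a * w) = t (b * w)) → a = b := by
    intro a b hab
    rw [← h1 a, ← h1 b]
    refine Finset.sum_congr rfl fun j _ => ?_
    rw [mul_comm (y' j) a, mul_comm (y' j) b, hab]
  obtain ⟨s0, hs0⟩ : ∃ s0 : R1, s0 = ∑ j, eps (y j) • y' j := ⟨_, rfl⟩
  have ht0 : ∀ x, t (s0 * x) = eps x := by
    intro x
    rw [hs0, Finset.sum_mul, map_sum]
    have h2 : ∑ j, t (eps (y j) • y' j * x) = eps (∑ j, t (y' j * x) • y j) := by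
      rw [map_sum]
      refine Finset.sum_congr rfl fun j _ => ?_
      rw [smul_mul_assoc, map_smul, map_smul, smul_eq_mul, smul_eq_mul, mul_comm]
    rw [h2, h1]
  have hx0 : ∀ x, x * s0 = eps x • s0 := by
    intro x
    apply hnd
    intro w
    have h2 : x * s0 * w = s0 * (x * w) := by ring
    rw [h2, ht0, map_mul, smul_mul_assoc, map_smul, ht0, smul_eq_mul]
  have ht1 : t s0 = 1 := by
    have := ht0 1
    rw [mul_one, map_one] at this
    exact this
  -- the reduction is killed by the `u - 1`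
  have hchar : CharP (MonoidAlgebra F V) ℓ :=
    charP_of_injective_algebraMap (algebraMap F (MonoidAlgebra F V)).injective ℓ
  have hfix : ∀ u, MonoidAlgebra.of F V u * rho.q s0 = rho.q s0 := by
    intro u
    obtain ⟨r, hr⟩ := rho.surj (MonoidAlgebra.of F V u - 1)
    obtain ⟨n, hn⟩ := hV u
    have h2 : rho.q (r ^ ℓ ^ n) = 0 := by
      rw [map_pow, hr, sub_pow_char_pow, ← map_pow, hn, map_one, one_pow, sub_self]
    obtain ⟨s, hs⟩ := rho.ker _ h2
    have h3 : c.κ (eps r) ^ ℓ ^ n = 0 := by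
      rw [← map_pow, ← map_pow, hs, map_smul, smul_eq_mul, map_mul, hpi, zero_mul]
    have h4 : c.κ (eps r) = 0 := (pow_eq_zero_iff (pow_pos (Fact.out : ℓ.Prime).pos n).ne').1 h3
    have h5 := congrArg rho.q (hx0 r)
    rw [map_mul, hr, hqs, h4, zero_smul, sub_mul, one_mul, sub_eq_zero] at h5
    exact h5
  obtain ⟨⟨m, hm⟩, -⟩ := hFts F V Unit 1 (rho.q s0) hfix
  have hm0 : m ≠ 0 := by
    rintro rfl
    rw [zero_smul] at hm
    obtain ⟨s, hs⟩ := rho.ker _ hm
    rw [hs, map_smul, smul_eq_mul] at ht1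
    have h2 := congrArg c.κ ht1
    rw [map_mul, hpi, zero_mul, map_one] at h2
    exact zero_ne_one h2
  obtain ⟨r, hr⟩ := c.surj m⁻¹
  refine ⟨r • s0, ?_, ?_⟩
  · intro x
    rw [mul_smul_comm, hx0, smul_comm]
  · rw [hqs, hr, hm, smul_smul, inv_mul_cancel₀ hm0, one_smul]

end Pool.Agent.PFD.D3.H70
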